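import Pool.Agent.T6.H26.RW.A
import Pool.Agent.T6.H16.RA.B3

set_option autoImplicit false

/-! Weighted homogeneous real polynomials: bounds. -/

namespace Pool.Agent.T6.H26.DC

open MvPolynomial MeasureTheory Set Filter Topology Metric
open Pool.Agent.T6.H16.RA Pool.Agent.T6.H26.RW

variable {n : ℕ}

/-- the scaling -/
def dl (w : Fin n → ℕ) (c : ℝ) (x : Fin n → ℝ) : Fin n → ℝ := fun i => c ^ w i * x i

lemma rv_dl {w : Fin n → ℕ} {q : MvPolynomial (Fin n) ℝ} {d : ℕ}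
    (hq : q.IsWeightedHomogeneous w d) (c : ℝ) (x : Fin n → ℝ) :
    rv q (dl w c x) = c ^ d * rv q x := by
  unfold rv dl
  rw [MvPolynomial.eval_eq, MvPolynomial.eval_eq, Finset.mul_sum]
  refine Finset.sum_congr rfl fun m hm => ?_
  have h1 : Finsupp.weight w m = d := hq (MvPolynomial.mem_support_iff.1 hm)
  have h2 : ∏ i ∈ m.support, (c ^ w i * x i) ^ m i = c ^ d * ∏ i ∈ m.support, x i ^ m i := by
    simp only [mul_pow, Finset.prod_mul_distrib, ← pow_mul]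
    rw [Finset.prod_pow_eq_pow_sum, ← h1, Finsupp.weight_apply, Finsupp.sum]
    congr 2
    refine Finset.sum_congr rfl fun i _ => ?_
    rw [smul_eq_mul, mul_comm]
  rw [h2]
  ring

lemma dl_dl (w : Fin n → ℕ) {c d : ℝ} (h : c * d = 1) (x : Fin n → ℝ) :
    dl w c (dl w d x) = x := by
  funext i
  unfold dl
  rw [← mul_assoc, ← mul_pow, h, one_pow, one_mul]

def kk (w : Fin n → ℕ) (i : Fin n) : ℕ := 2 * ∏ j ∈ Finset.univ.erase i, w j

def DD (w : Fin n → ℕ) : ℕ := 2 * ∏ j, w j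

lemma kk_mul (w : Fin n → ℕ) (i : Fin n) : w i * kk w i = DD w := by
  unfold kk DD
  rw [← Finset.mul_prod_erase Finset.univ w (Finset.mem_univ i)]
  ring

lemma kk_even (w : Fin n → ℕ) (i : Fin n) : Even (kk w i) := even_two_mul _

lemma kk_pos {w : Fin n → ℕ} (hw : ∀ i, 0 < w i) (i : Fin n) : 0 < kk w i :=
  Nat.mul_pos two_pos (Finset.prod_pos fun j _ => hw j)

lemma DD_pos {w : Fin n → ℕ} (hw : ∀ i, 0 < w i) : 0 < DD w :=
  Nat.mul_pos two_pos (Finset.prod_pos fun j _ => hw j)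

/-- the sum of even powers -/
def NN (w : Fin n → ℕ) (x : Fin n → ℝ) : ℝ := ∑ i, x i ^ kk w i

lemma NN_dl (w : Fin n → ℕ) (c : ℝ) (x : Fin n → ℝ) : NN w (dl w c x) = c ^ DD w * NN w x := by
  unfold NN dl
  rw [Finset.mul_sum]
  refine Finset.sum_congr rfl fun i _ => ?_
  rw [mul_pow, ← pow_mul, kk_mul]

lemma NN_cont (w : Fin n → ℕ) : Continuous (NN w) := by
  unfold NN
  fun_prop

lemma NN_pos {w : Fin n → ℕ} {x : Fin n → ℝ} (hx : x ≠ 0) : 0 < NN w x := by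
  obtain ⟨i, hi⟩ := Function.ne_iff.1 hx
  refine Finset.sum_pos' (fun j _ => (kk_even w j).pow_nonneg _) ⟨i, Finset.mem_univ _, ?_⟩
  exact (kk_even w i).pow_pos hi

lemma sph {w : Fin n → ℕ} (hw : ∀ i, 0 < w i) : IsCompact {x : Fin n → ℝ | NN w x = 1} := by
  refine Metric.isCompact_of_isClosed_isBounded (isClosed_eq (NN_cont w) continuous_const) ?_
  refine (isBounded_iff_forall_norm_le).2 ⟨1, fun x hx => ?_⟩
  refine (pi_norm_le_iff_of_nonneg zero_le_one).2 fun i => ?_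
  have h1 : x i ^ kk w i ≤ NN w x := Finset.single_le_sum (f := fun i => x i ^ kk w i)
    (fun j _ => (kk_even w j).pow_nonneg _) (Finset.mem_univ i)
  have h2 : NN w x = 1 := hx
  rw [h2, ← (kk_even w i).pow_abs] at h1
  rw [Real.norm_eq_abs]
  exact (pow_le_one_iff_of_nonneg (abs_nonneg _) (kk_pos hw i).ne').1 h1

lemma scale {w : Fin n → ℕ} (hw : ∀ i, 0 < w i) {x : Fin n → ℝ} (hx : x ≠ 0) :
    ∃ y, NN w y = 1 ∧ ∀ (q : MvPolynomial (Fin n) ℝ) (e : ℕ), q.IsWeightedHomogeneous w e →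
      rv q x = NN w x ^ ((e : ℝ) / DD w) * rv q y := by
  have hN := NN_pos (w := w) hx
  have hD := DD_pos hw
  set r := NN w x ^ ((DD w : ℝ)⁻¹) with hr
  have hr0 : 0 < r := Real.rpow_pos_of_pos hN _
  have hrD : r ^ DD w = NN w x := Real.rpow_inv_natCast_pow hN.le hD.ne'
  refine ⟨dl w r⁻¹ x, ?_, fun q e hq => ?_⟩
  · rw [NN_dl, inv_pow, hrD, inv_mul_cancel₀ hN.ne']
  · rw [rv_dl hq, inv_pow]
    have h1 : NN w x ^ ((e : ℝ) / DD w) = r ^ e := by
      rw [hr, ← Real.rpow_natCast, ← Real.rpow_mul hN.le]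
      congr 1
      ring
    rw [h1, ← mul_assoc, mul_inv_cancel₀ (pow_pos hr0 e).ne', one_mul]

lemma upper {w : Fin n → ℕ} (hw : ∀ i, 0 < w i) {q : MvPolynomial (Fin n) ℝ} {e : ℕ}
    (hq : q.IsWeightedHomogeneous w e) : ∃ C : ℝ, 0 < C ∧ ∀ x : Fin n → ℝ, x ≠ 0 →
      rv q x ≤ C * NN w x ^ ((e : ℝ) / DD w) := by
  obtain ⟨C, hC⟩ := ((sph hw).image (rv_cont q)).isBounded.exists_norm_le
  refine ⟨max C 1, lt_of_lt_of_le one_pos (le_max_right _ _), fun x hx => ?_⟩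
  obtain ⟨y, hy, h1⟩ := scale hw hx
  rw [h1 q e hq, mul_comm]
  refine mul_le_mul_of_nonneg_right ?_ (Real.rpow_nonneg (NN_pos hx).le _)
  have h2 := hC _ ⟨y, hy, rfl⟩
  rw [Real.norm_eq_abs] at h2
  exact (le_abs_self _).trans (h2.trans (le_max_left _ _))

lemma lower {w : Fin n → ℕ} (hw : ∀ i, 0 < w i) {q : MvPolynomial (Fin n) ℝ} {e : ℕ}
    (hq : q.IsWeightedHomogeneous w e) (hpos : ∀ x : Fin n → ℝ, x ≠ 0 → 0 < rv q x) :
    ∃ C : ℝ, 0 < C ∧ ∀ x : Fin n → ℝ, x ≠ 0 → C * NN w x ^ ((e : ℝ) / DD w) ≤ rv q x := by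
  have hD := DD_pos hw
  have h0 : ∀ y : Fin n → ℝ, NN w y = 1 → y ≠ 0 := by
    rintro y hy rfl
    unfold NN at hy
    simp only [Pi.zero_apply] at hy
    rw [Finset.sum_eq_zero fun i _ => zero_pow (kk_pos hw i).ne'] at hy
    exact zero_ne_one hy
  obtain ⟨C, hC0, hC⟩ := (sph hw).exists_forall_le' (rv_cont q).continuousOn
    fun y hy => hpos y (h0 y hy)
  refine ⟨C, hC0, fun x hx => ?_⟩
  obtain ⟨y, hy, h1⟩ := scale hw hx
  rw [h1 q e hq, mul_comm C]
  exact mul_le_mul_of_nonneg_left (hC y hy) (Real.rpow_nonneg (NN_pos hx).le _)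

lemma ne_null : volume {x : Fin n → ℝ | ¬ ∀ i, x i ≠ 0} = 0 := by
  have e : {x : Fin n → ℝ | ¬ ∀ i, x i ≠ 0} = ⋃ i, {x : Fin n → ℝ | x i = 0} := by
    ext x
    simp
  rw [e, measure_iUnion_null_iff]
  intro i
  rw [volume_pi]
  exact Measure.pi_hyperplane _ i 0

/-- the integrability of the powers of `NN` -/
lemma NN_int {w : Fin n → ℕ} (hw : ∀ i, 0 < w i) (hn : 0 < ∑ i, w i) {σ : ℝ}
    (hσ : -((∑ i, w i : ℕ) : ℝ) / DD w < σ) :
    IntegrableOn (fun x => NN w x ^ σ) (closedBall (0 : Fin n → ℝ) 1) := by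
  classical
  rcases le_or_gt 0 σ with h0 | h0
  · exact ((NN_cont w).rpow_const fun x => Or.inr h0).continuousOn.integrableOn_compact
      (isCompact_closedBall _ _)
  set W : ℝ := ((∑ i, w i : ℕ) : ℝ) with hW
  have hW0 : 0 < W := by
    rw [hW]
    exact_mod_cast hn
  have hD0 : (0 : ℝ) < DD w := by exact_mod_cast DD_pos hw
  set θ := -(σ * DD w / W) with hθ
  have hθ1 : θ < 1 := by
    rw [hθ, ← neg_div, div_lt_one hW0]
    rw [div_lt_iff₀ hD0] at hσ
    linarith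
  have hli : LinearIndependent ℝ (fun i : Fin n => (Pi.single i 1 : Fin n → ℝ)) := by
    have h2 := (Pi.basisFun ℝ (Fin n)).linearIndependent
    have e : (⇑(Pi.basisFun ℝ (Fin n))) = fun i : Fin n => (Pi.single i 1 : Fin n → ℝ) := by
      funext i
      simp
    rwa [e] at h2
  have h1 := indep_int (fun i : Fin n => (Pi.single i 1 : Fin n → ℝ)) hli hθ1 0 1
  have hmeas : Measurable fun x => NN w x ^ σ := (NN_cont w).measurable.pow_const σ
  refine Integrable.mono' h1 hmeas.aestronglyMeasurable ?_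
  rw [ae_restrict_iff' measurableSet_closedBall]
  have hae : ∀ᵐ x : Fin n → ℝ, ∀ i, x i ≠ 0 := ae_iff.2 ne_null
  filter_upwards [hae] with x hx _
  have hNN0 : 0 ≤ NN w x := Finset.sum_nonneg fun j _ => (kk_even w j).pow_nonneg _
  rw [Real.norm_eq_abs, abs_of_nonneg (Real.rpow_nonneg hNN0 _)]
  simp only [single_one_dotProduct]
  -- the weighted inequality of the means
  have hz : ∀ i ∈ (Finset.univ : Finset (Fin n)), 0 ≤ x i ^ kk w i :=
    fun i _ => (kk_even w i).pow_nonneg _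
  have hθi : ∑ i ∈ (Finset.univ : Finset (Fin n)), (w i : ℝ) / W = 1 := by
    rw [← Finset.sum_div, hW]
    push_cast
    exact div_self (by rw [hW] at hW0; push_cast at hW0; exact hW0.ne')
  have h2 := Real.geom_mean_le_arith_mean_weighted Finset.univ (fun i => (w i : ℝ) / W)
    (fun i => x i ^ kk w i) (fun i _ => div_nonneg (Nat.cast_nonneg _) hW0.le) hθi hz
  have h3 : ∑ i ∈ (Finset.univ : Finset (Fin n)), (w i : ℝ) / W * x i ^ kk w i ≤ NN w x := by
    unfold NN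
    refine Finset.sum_le_sum fun i _ => ?_
    refine mul_le_of_le_one_left (hz i (Finset.mem_univ i)) ?_
    rw [← hθi]
    exact Finset.single_le_sum (f := fun i => (w i : ℝ) / W)
      (fun j _ => div_nonneg (Nat.cast_nonneg _) hW0.le) (Finset.mem_univ i)
  have h4 : ∏ i ∈ (Finset.univ : Finset (Fin n)), (x i ^ kk w i) ^ ((w i : ℝ) / W) =
      ∏ i, |x i| ^ ((DD w : ℝ) / W) := by
    refine Finset.prod_congr rfl fun i _ => ?_
    rw [← (kk_even w i).pow_abs, ← Real.rpow_natCast, ← Real.rpow_mul (abs_nonneg _)]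
    congr 1
    rw [← kk_mul w i]
    push_cast
    ring
  rw [h4] at h2
  have hpos : 0 < ∏ i, |x i| ^ ((DD w : ℝ) / W) :=
    Finset.prod_pos fun i _ => Real.rpow_pos_of_pos (abs_pos.2 (hx i)) _
  refine (Real.rpow_le_rpow_of_nonpos hpos (h2.trans h3) h0.le).trans (le_of_eq ?_)
  rw [← Real.finsetProd_rpow _ _ fun i _ => Real.rpow_nonneg (abs_nonneg _) _]
  refine Finset.prod_congr rfl fun i _ => ?_
  rw [← Real.rpow_mul (abs_nonneg _)]
  congr 1
  rw [hθ]
  ring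

end Pool.Agent.T6.H26.DC
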