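import Pool.Agent.T6.H26.DC.A
import Pool.Agent.T6.H26.RX.B

set_option autoImplicit false

/-! The root up to an integer of a real weighted homogeneous polynomial with a definite factor. -/

namespace Pool.Agent.T6.H26.DC

open MvPolynomial MeasureTheory Set Filter Topology Metric
open Pool.Agent.H628R4.TP (weylS IsBFunction)
open Pool.Agent.T6.H16.RA Pool.Agent.T6.H26.RW
open Pool.Agent.T6.H26.RX (rpow_bd)

variable {n : ℕ}

lemma rv_mul (p q : MvPolynomial (Fin n) ℝ) (x : Fin n → ℝ) : rv (p * q) x = rv p x * rv q x := by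
  unfold rv
  rw [map_mul]

lemma rv_pow (p : MvPolynomial (Fin n) ℝ) (k : ℕ) (x : Fin n → ℝ) :
    rv (p ^ k) x = rv p x ^ k := by
  unfold rv
  rw [map_pow]

/-- the volume of the scaled set -/
lemma vol_dl (w : Fin n → ℕ) {c : ℝ} (hc : 0 < c) (B : Set (Fin n → ℝ)) :
    volume (dl w c ⁻¹' B) = ENNReal.ofReal ((c ^ ∑ i, w i)⁻¹) * volume B := by
  set D : (Fin n → ℝ) →ₗ[ℝ] (Fin n → ℝ) := Matrix.toLin' (Matrix.diagonal fun i => c ^ w i)
    with hD
  have h1 : (D : (Fin n → ℝ) → (Fin n → ℝ)) = dl w c := by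
    funext x i
    rw [hD, Matrix.toLin'_apply, Matrix.mulVec_diagonal]
    rfl
  have hdet : LinearMap.det D = c ^ ∑ i, w i := by
    rw [hD, LinearMap.det_toLin', Matrix.det_diagonal, Finset.prod_pow_eq_pow_sum]
  rw [← h1, Measure.addHaar_preimage_linearMap _ (by rw [hdet]; positivity), hdet,
    abs_of_pos (by positivity)]

theorem rcone_root {w : Fin n → ℕ} (hw : ∀ i, 0 < w i) (hn : 0 < ∑ i, w i)
    {g p : MvPolynomial (Fin n) ℝ} {dg dp m : ℕ} (hg : g.IsWeightedHomogeneous w dg)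
    (hp : p.IsWeightedHomogeneous w dp) (hdp : 0 < dp) (hm : 0 < m)
    (hpos : ∀ x : Fin n → ℝ, x ≠ 0 → 0 < rv p x) (hgx : ∃ x : Fin n → ℝ, x ≠ 0 ∧ 0 < rv g x)
    {b : Polynomial ℂ} (hb : IsBFunction (cx (g * p ^ m)) b) :
    ∃ l : ℤ, b.eval (-((∑ i, w i : ℕ) : ℂ) / (dg + m * dp : ℕ) + (l : ℂ)) = 0 := by
  classical
  set W := ∑ i, w i with hW
  set d := dg + m * dp with hd
  have hd0 : 0 < d := Nat.lt_of_lt_of_le (Nat.mul_pos hm hdp) (Nat.le_add_left _ _)
  set k := W * dg with hk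
  set Kg := k + dp * W with hKg
  set ep := W * dg * (m - 1) with hep
  have hdk : dg * Kg + dp * ep = d * k := by
    obtain ⟨m', rfl⟩ : ∃ m', m = m' + 1 := ⟨m - 1, by omega⟩
    rw [hKg, hep, hd, hk, Nat.add_sub_cancel]
    ring
  have hfd : (g * p ^ m).IsWeightedHomogeneous w d := by
    have := hg.mul (hp.pow m)
    rwa [smul_eq_mul] at this
  set h := g ^ Kg * p ^ ep with hh
  have hhd : h.IsWeightedHomogeneous w (d * k) := by
    have h1 := (hg.pow Kg).mul (hp.pow ep)
    rw [smul_eq_mul, smul_eq_mul, mul_comm Kg, mul_comm ep, hdk] at h1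
    exact h1
  set f := g * p ^ m with hf
  have hrvf : ∀ x, rv f x = rv g x * rv p x ^ m := fun x => by rw [hf, rv_mul, rv_pow]
  have hrvh : ∀ x, rv h x = rv g x ^ Kg * rv p x ^ ep := fun x => by
    rw [hh, rv_mul, rv_pow, rv_pow]
  set U : Set (Fin n → ℝ) := {x | 0 < rv g x} ∩ {x | x ≠ 0} with hU
  have hUo : IsOpen U := (isOpen_lt continuous_const (rv_cont g)).inter isOpen_ne
  have hreg : Reg f U := by
    refine ⟨hUo, fun x hx => ?_, fun x hx hn => ?_⟩
    · rw [hrvf]
      exact mul_pos hx.1 (pow_pos (hpos x hx.2) _)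
    · by_cases hx0 : x = 0
      · have h1 := rv_dl hfd 0 x
        have h2 : dl w 0 x = x := by
          rw [hx0]
          funext i
          unfold dl
          rw [Pi.zero_apply, mul_zero]
        rw [h2, zero_pow hd0.ne', zero_mul] at h1
        exact h1
      · have h1 : 0 ≤ rv g x :=
          closure_minimal (fun y hy => (hy.1 : 0 < rv g y).le)
            (isClosed_le continuous_const (rv_cont g)) hx
        have h2 : ¬ 0 < rv g x := fun h3 => hn ⟨h3, hx0⟩
        rw [hrvf, le_antisymm (not_lt.1 h2) h1, zero_mul]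
  have hD0 : (0 : ℝ) < DD w := by exact_mod_cast DD_pos hw
  have hdR : (0 : ℝ) < d := by exact_mod_cast hd0
  have hWR : (0 : ℝ) < W := by exact_mod_cast hn
  have hdR1 : (1 : ℝ) ≤ d := by exact_mod_cast hd0
  have hdp1 : (1 : ℝ) ≤ dp := by exact_mod_cast hdp
  have hdkR : (dg : ℝ) * Kg + dp * ep = d * k := by exact_mod_cast hdk
  have hddR : (d : ℝ) = dg + m * dp := by
    rw [hd]
    push_cast
    ring
  set s1 : ℝ := -(W : ℝ) / d - k with hs1
  obtain ⟨C1, hC1, hg1⟩ := upper hw hg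
  obtain ⟨C2, hC2, hp2⟩ := upper hw hp
  obtain ⟨C3, hC3, hp3⟩ := lower hw hp hpos
  obtain ⟨q, hq0, hq1, hq3, hq2⟩ : ∃ q : ℝ, 0 < q ∧ q ≤ 1 ∧ q ≤ C3 ∧ C2 ≤ q⁻¹ := by
    have h0 : 0 < min (min C3 C2⁻¹) 1 := lt_min (lt_min hC3 (inv_pos.2 hC2)) one_pos
    refine ⟨min (min C3 C2⁻¹) 1, h0, min_le_right _ _, ?_, ?_⟩
    · exact (min_le_left _ _).trans (min_le_left _ _)
    · rw [le_inv_comm₀ hC2 h0]
      exact (min_le_left _ _).trans (min_le_right _ _)
  -- the product
  have hprod : ∀ x ∈ U, ∀ s : ℝ, rv f x ^ s * rv h x =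
      rv g x ^ (s + Kg) * rv p x ^ (m * s + ep) := by
    intro x hx s
    have hgx0 : 0 < rv g x := hx.1
    have hpx0 := hpos x hx.2
    rw [hrvf, hrvh, Real.mul_rpow hgx0.le (pow_nonneg hpx0.le _), Real.rpow_add hgx0,
      Real.rpow_add hpx0, Real.rpow_mul hpx0.le, Real.rpow_natCast, Real.rpow_natCast,
      Real.rpow_natCast]
    ring
  -- convergence
  have hint : ∀ s, s1 < s → IntegrableOn (fun x => rv f x ^ s * rv h x)
      (U ∩ closedBall 0 1) := by
    intro s hs
    have hσ : -((∑ i, w i : ℕ) : ℝ) / DD w < d * (s + k) / DD w := by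
      refine div_lt_div_of_pos_right ?_ hD0
      rw [← hW]
      have h1 : s1 + k = -(W : ℝ) / d := by
        rw [hs1]
        ring
      have h2 : -(W : ℝ) / d < s + k := by linarith
      rw [div_lt_iff₀ hdR] at h2
      linarith
    have hI := (NN_int hw hn hσ).mono_set (s := U ∩ closedBall 0 1) inter_subset_right
    have hmeas : Measurable fun x => rv f x ^ s * rv h x :=
      ((rv_cont _).measurable.pow_const s).mul (rv_cont _).measurable
    set E := s + Kg with hE
    set E' := m * s + ep with hE'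
    have hE0 : 0 ≤ E := by
      have h1 : (W : ℝ) / d ≤ W := div_le_self hWR.le hdR1
      have h2 : (Kg : ℝ) = k + dp * W := by
        rw [hKg]
        push_cast
        ring
      rw [hE, h2]
      have h3 : s1 = -((W : ℝ) / d) - k := by rw [hs1, neg_div]
      nlinarith
    refine Integrable.mono' (hI.const_mul (C1 ^ E * (q ^ |E'|)⁻¹)) hmeas.aestronglyMeasurable ?_
    rw [ae_restrict_iff' (hUo.measurableSet.inter measurableSet_closedBall)]
    refine Eventually.of_forall fun x hx => ?_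
    have hx0 : x ≠ 0 := hx.1.2
    have hgx0 : 0 < rv g x := hx.1.1
    have hpx0 := hpos x hx0
    have hN := NN_pos (w := w) hx0
    rw [hprod x hx.1 s, Real.norm_eq_abs, abs_of_nonneg (mul_nonneg (Real.rpow_nonneg hgx0.le _)
      (Real.rpow_nonneg hpx0.le _))]
    set A := NN w x ^ ((dg : ℝ) / DD w) with hA
    set A' := NN w x ^ ((dp : ℝ) / DD w) with hA'
    have hA0 : 0 < A := Real.rpow_pos_of_pos hN _
    have hA'0 : 0 < A' := Real.rpow_pos_of_pos hN _
    have e1 : rv g x ^ E ≤ C1 ^ E * A ^ E := by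
      rw [← Real.mul_rpow hC1.le hA0.le]
      exact Real.rpow_le_rpow hgx0.le (hg1 x hx0) hE0
    have e2 : rv p x ^ E' ≤ (q ^ |E'|)⁻¹ * A' ^ E' := by
      have h1 := rpow_bd (A := rv p x / A') (τ := E') hq0 hq1 ?_ ?_ le_rfl
      · have h2 := h1.2
        rw [Real.div_rpow hpx0.le hA'0.le, div_le_iff₀ (Real.rpow_pos_of_pos hA'0 _)] at h2
        exact h2
      · rw [le_div_iff₀ hA'0]
        exact (mul_le_mul_of_nonneg_right hq3 hA'0.le).trans (hp3 x hx0)
      · rw [div_le_iff₀ hA'0]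
        exact (hp2 x hx0).trans (mul_le_mul_of_nonneg_right hq2 hA'0.le)
    have e3 : A ^ E * A' ^ E' = NN w x ^ (d * (s + k) / DD w) := by
      rw [hA, hA', ← Real.rpow_mul hN.le, ← Real.rpow_mul hN.le, ← Real.rpow_add hN]
      congr 1
      rw [div_mul_eq_mul_div, div_mul_eq_mul_div, ← add_div]
      congr 1
      rw [hE, hE', hddR] 
      rw [hddR] at hdkR
      linear_combination hdkR
    calc rv g x ^ E * rv p x ^ E' ≤ (C1 ^ E * A ^ E) * ((q ^ |E'|)⁻¹ * A' ^ E') :=
          mul_le_mul e1 e2 (Real.rpow_nonneg hpx0.le _) (mul_nonneg (Real.rpow_nonneg hC1.le _)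
            (Real.rpow_nonneg hA0.le _))
      _ = C1 ^ E * (q ^ |E'|)⁻¹ * (A ^ E * A' ^ E') := by ring
      _ = _ := by rw [e3]
  have hhU : ∀ x ∈ U, 0 ≤ rv h x := fun x hx => by
    rw [hrvh]
    exact mul_nonneg (pow_nonneg (hx.1 : 0 < rv g x).le _) (pow_nonneg (hpos x hx.2).le _)
  -- divergence
  have hdiv : ∀ R : ℝ, ∃ᶠ t in 𝓝[>] s1,
      R < ∫ x in U ∩ closedBall 0 (1 / 2), rv f x ^ t * rv h x := by
    intro R
    obtain ⟨x1, hx1, hx1g⟩ := hgx
    set p1 := rv p x1 with hp1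
    have hp10 : 0 < p1 := hpos x1 hx1
    obtain ⟨r, hr, hB⟩ : ∃ r : ℝ, 0 < r ∧ ∀ y ∈ closedBall x1 r,
        y ∈ U ∧ 2 / 3 * p1 < rv p y ∧ rv p y < 4 / 3 * p1 := by
      have h1 : ∀ᶠ y in 𝓝 x1, y ∈ U ∧ 2 / 3 * p1 < rv p y ∧ rv p y < 4 / 3 * p1 := by
        have hc := (rv_cont p).tendsto x1
        refine Filter.Eventually.and (hUo.mem_nhds ⟨hx1g, hx1⟩) (Filter.Eventually.and ?_ ?_)
        · exact hc.eventually (lt_mem_nhds (by rw [← hp1]; linarith))
        · exact hc.eventually (gt_mem_nhds (by rw [← hp1]; linarith))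
      exact nhds_basis_closedBall.eventually_iff.1 h1
    set B := closedBall x1 r with hBdef
    have hBc : IsCompact B := isCompact_closedBall _ _
    obtain ⟨a1, ha1, hfa⟩ := hBc.exists_forall_le' (rv_cont f).continuousOn (a := (0 : ℝ))
      fun y hy => hreg.pos y (hB y hy).1
    obtain ⟨a2, ha2, hha⟩ := hBc.exists_forall_le' (rv_cont h).continuousOn (a := (0 : ℝ))
      fun y hy => by
        rw [hrvh]
        exact mul_pos (pow_pos (hB y hy).1.1 _) (pow_pos (hpos y (hB y hy).1.2) _)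
    obtain ⟨a3, ha3⟩ := (hBc.image (rv_cont f)).isBounded.exists_norm_le
    obtain ⟨u, hu0, hu1, hua, hub⟩ : ∃ u : ℝ, 0 < u ∧ u ≤ 1 ∧ u ≤ a1 ∧ max a3 1 ≤ u⁻¹ := by
      have hm0 : 0 < max a3 1 := lt_of_lt_of_le one_pos (le_max_right _ _)
      have h0 : 0 < min (min a1 (max a3 1)⁻¹) 1 := lt_min (lt_min ha1 (inv_pos.2 hm0)) one_pos
      refine ⟨min (min a1 (max a3 1)⁻¹) 1, h0, min_le_right _ _, ?_, ?_⟩
      · exact (min_le_left _ _).trans (min_le_left _ _)
      · rw [le_inv_comm₀ hm0 h0]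
        exact (min_le_left _ _).trans (min_le_right _ _)
    set T := |s1| + 1 with hT
    set κ0 := u ^ T * a2 with hκ0'
    have hκ0 : 0 < κ0 := mul_pos (Real.rpow_pos_of_pos hu0 _) ha2
    have hlow : ∀ y ∈ B, ∀ t, s1 < t → t < s1 + 1 → κ0 ≤ rv f y ^ t * rv h y := by
      intro y hy t h1 h2
      have habs : |t| ≤ T := abs_le.2 ⟨by linarith [neg_abs_le s1], by linarith [le_abs_self s1]⟩
      have h4 : rv f y ≤ u⁻¹ := by
        have h5 := ha3 _ ⟨y, hy, rfl⟩
        rw [Real.norm_eq_abs] at h5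
        exact ((le_abs_self _).trans h5).trans ((le_max_left _ _).trans hub)
      have h3 := (rpow_bd hu0 hu1 (hua.trans (hfa y hy)) h4 habs).1
      exact mul_le_mul h3 (hha y hy) ha2.le
        (Real.rpow_nonneg (hreg.pos y (hB y hy).1).le _)
    obtain ⟨j0, hj0⟩ : ∃ j0 : ℕ, ‖x1‖ + r ≤ (2 : ℝ) ^ j0 * (1 / 2) := by
      obtain ⟨j0, hj0⟩ := exists_nat_gt (2 * (‖x1‖ + r))
      refine ⟨j0, ?_⟩
      have h1 : (j0 : ℝ) < 2 ^ j0 := by exact_mod_cast Nat.lt_two_pow_self
      linarith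
    set c : ℕ → ℝ := fun j => (2 : ℝ) ^ (j0 + j) with hc
    have hc0 : ∀ j, 0 < c j := fun j => by positivity
    have hc1 : ∀ j, (2 : ℝ) ^ j0 ≤ c j := fun j =>
      pow_le_pow_right₀ (by norm_num) (Nat.le_add_right _ _)
    have hc2 : ∀ j, 1 ≤ c j := fun j => one_le_pow₀ (by norm_num)
    set X : ℕ → Set (Fin n → ℝ) := fun j => dl w (c j) ⁻¹' B with hX
    have hdlc : ∀ j, Continuous (dl w (c j)) := fun j => by
      unfold dl
      fun_prop
    have hXm : ∀ j, MeasurableSet (X j) := fun j =>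
      (isClosed_closedBall.preimage (hdlc j)).measurableSet
    have hXU : ∀ j, X j ⊆ U ∩ closedBall 0 (1 / 2) := by
      intro j x hx
      have hy := hB _ hx
      refine ⟨⟨?_, ?_⟩, ?_⟩
      · have h1 : 0 < rv g (dl w (c j) x) := hy.1.1
        rw [rv_dl hg] at h1
        exact pos_of_mul_pos_right h1 (pow_pos (hc0 j) _).le
      · rintro rfl
        apply hy.1.2
        funext i
        unfold dl
        rw [Pi.zero_apply, mul_zero]
      · rw [mem_closedBall_zero_iff]
        refine (pi_norm_le_iff_of_nonneg (by norm_num)).2 fun i => ?_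
        have h1 : ‖dl w (c j) x i‖ ≤ ‖dl w (c j) x‖ := norm_le_pi_norm _ i
        have h2 : ‖dl w (c j) x‖ ≤ ‖x1‖ + r := by
          have h3 : dist (dl w (c j) x) x1 ≤ r := hx
          rw [dist_eq_norm] at h3
          have h4 := norm_sub_norm_le (dl w (c j) x) x1
          linarith
        have h3 : ‖dl w (c j) x i‖ = c j ^ w i * ‖x i‖ := by
          unfold dl
          rw [norm_mul, norm_pow, Real.norm_of_nonneg (hc0 j).le]
        have h4 : (2 : ℝ) ^ j0 ≤ c j ^ w i := (hc1 j).trans (le_self_pow₀ (hc2 j) (hw i).ne')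
        have h5 : (2 : ℝ) ^ j0 * ‖x i‖ ≤ (2 : ℝ) ^ j0 * (1 / 2) := by
          have := mul_le_mul_of_nonneg_right h4 (norm_nonneg (x i))
          linarith
        exact le_of_mul_le_mul_left h5 (by positivity)
    have hXfin : ∀ j, volume (X j) ≠ ⊤ := fun j =>
      (lt_of_le_of_lt (measure_mono ((hXU j).trans inter_subset_right))
        measure_closedBall_lt_top).ne
    have hdisj : ∀ i j : ℕ, i < j → Disjoint (X i) (X j) := by
      intro i j hij
      rw [Set.disjoint_left]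
      intro x hxi hxj
      have h1 := (hB _ hxi).2.1
      have h2 := (hB _ hxj).2.2
      rw [rv_dl hp] at h1 h2
      obtain ⟨l, rfl⟩ : ∃ l, j = i + 1 + l := ⟨j - (i + 1), by omega⟩
      have h3 : c (i + 1 + l) = c i * 2 ^ (l + 1) := by
        simp only [hc]
        rw [← pow_add]
        congr 1
        ring
      have h4 : (2 : ℝ) ≤ (2 ^ (l + 1)) ^ dp := by
        have h5 : (2 : ℝ) ^ 1 ≤ 2 ^ (l + 1) := pow_le_pow_right₀ (by norm_num) (by omega)
        have h6 : (1 : ℝ) ≤ 2 ^ (l + 1) := one_le_pow₀ (by norm_num)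
        have h7 := le_self_pow₀ h6 hdp.ne'
        linarith
      rw [h3, mul_pow] at h2
      have h5 : 0 < c i ^ dp * rv p x := by linarith
      have h6 := mul_le_mul_of_nonneg_left h4 h5.le
      have h7 : c i ^ dp * (2 ^ (l + 1)) ^ dp * rv p x = c i ^ dp * rv p x * (2 ^ (l + 1)) ^ dp := by
        ring
      rw [h7] at h2
      linarith
    set V := (volume : Measure (Fin n → ℝ)).real B with hV
    have hV0 : 0 < V := by
      refine ENNReal.toReal_pos ?_ measure_closedBall_lt_top.ne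
      exact (measure_closedBall_pos volume x1 hr).ne'
    have hXvol : ∀ j, (volume : Measure (Fin n → ℝ)).real (X j) = (c j ^ W)⁻¹ * V := by
      intro j
      unfold Measure.real
      rw [hX]
      simp only
      rw [vol_dl w (hc0 j), ENNReal.toReal_mul, ENNReal.toReal_ofReal
        (inv_nonneg.2 (pow_nonneg (hc0 j).le _))]
      rfl
    have hterm : ∀ j, ∀ x ∈ X j, ∀ t, s1 < t → t < s1 + 1 →
        ((c j ^ d)⁻¹) ^ t * (c j ^ (d * k))⁻¹ * κ0 ≤ rv f x ^ t * rv h x := by
      intro j x hx t h1 h2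
      have h3 := hlow _ hx t h1 h2
      rw [rv_dl hfd, rv_dl hhd] at h3
      have hcd : 0 < c j ^ d := pow_pos (hc0 j) _
      have hcdk : 0 < c j ^ (d * k) := pow_pos (hc0 j) _
      have hfx := hreg.pos x (hXU j hx).1
      rw [Real.mul_rpow hcd.le hfx.le] at h3
      have hct : 0 < (c j ^ d) ^ t := Real.rpow_pos_of_pos hcd _
      rw [Real.inv_rpow hcd.le]
      calc ((c j ^ d) ^ t)⁻¹ * (c j ^ (d * k))⁻¹ * κ0 ≤ ((c j ^ d) ^ t)⁻¹ * (c j ^ (d * k))⁻¹ *
            ((c j ^ d) ^ t * rv f x ^ t * (c j ^ (d * k) * rv h x)) :=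
            mul_le_mul_of_nonneg_left h3 (by positivity)
        _ = rv f x ^ t * rv h x := by
            field_simp
    obtain ⟨K, hK⟩ := exists_nat_gt (R / (κ0 * V))
    rw [div_lt_iff₀ (mul_pos hκ0 hV0)] at hK
    set L : ℝ → ℝ := fun t => ∑ j ∈ Finset.range K,
      ((c j ^ d)⁻¹) ^ t * (c j ^ (d * k))⁻¹ * κ0 * ((c j ^ W)⁻¹ * V) with hL
    have hLc : Continuous L := by
      refine continuous_finsetSum _ fun j _ => ?_
      refine Continuous.mul (Continuous.mul (Continuous.mul ?_ continuous_const) continuous_const)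
        continuous_const
      exact Real.continuous_const_rpow (inv_ne_zero (pow_pos (hc0 j) _).ne')
    have hLs : L s1 = K * (κ0 * V) := by
      have h1 : ∀ j ∈ Finset.range K,
          ((c j ^ d)⁻¹) ^ s1 * (c j ^ (d * k))⁻¹ * κ0 * ((c j ^ W)⁻¹ * V) = κ0 * V := by
        intro j _
        have hcj := hc0 j
        have h2 : ((c j ^ d)⁻¹) ^ s1 * (c j ^ (d * k))⁻¹ * (c j ^ W)⁻¹ = 1 := by
          generalize c j = y at hcj
          rw [← Real.rpow_natCast, ← Real.rpow_natCast, ← Real.rpow_natCast,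
            ← Real.rpow_neg hcj.le, ← Real.rpow_neg hcj.le, ← Real.rpow_neg hcj.le,
            ← Real.rpow_mul hcj.le, ← Real.rpow_add hcj, ← Real.rpow_add hcj]
          have h3 : -(d : ℝ) * s1 + -((d * k : ℕ) : ℝ) + -(W : ℝ) = 0 := by
            rw [hs1]
            push_cast
            field_simp
            ring
          rw [h3, Real.rpow_zero]
        linear_combination (κ0 * V) * h2
      rw [hL]
      simp only
      rw [Finset.sum_congr rfl h1, Finset.sum_const, Finset.card_range, nsmul_eq_mul]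
    have hev : ∀ᶠ t in 𝓝[>] s1, R < L t :=
      ((hLc.tendsto s1).eventually (lt_mem_nhds (by rw [hLs]; exact hK))).filter_mono
        nhdsWithin_le_nhds
    have hlt1 : ∀ᶠ t in 𝓝[>] s1, t < s1 + 1 :=
      (gt_mem_nhds (lt_add_one s1)).filter_mono nhdsWithin_le_nhds
    refine Eventually.frequently ?_
    filter_upwards [hev, hlt1, self_mem_nhdsWithin] with t ht ht1 hts
    have hts' : s1 < t := hts
    refine ht.trans_le ?_
    have hI : IntegrableOn (fun x => rv f x ^ t * rv h x) (U ∩ closedBall 0 (1 / 2)) :=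
      (hint t hts).mono_set (inter_subset_inter_right _
        (closedBall_subset_closedBall (by norm_num)))
    have h1 : L t ≤ ∑ j ∈ Finset.range K, ∫ x in X j, rv f x ^ t * rv h x := by
      refine Finset.sum_le_sum fun j _ => ?_
      have h2 := setIntegral_ge_of_const_le_real (hXm j) (hXfin j)
        (fun x hx => hterm j x hx t hts' ht1) (hI.mono_set (hXU j))
      rw [hXvol] at h2
      exact h2
    refine h1.trans ?_
    rw [← integral_biUnion_finset _ (fun j _ => hXm j) ?_ fun j _ => hI.mono_set (hXU j)]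
    · refine setIntegral_mono_set hI ?_ ?_
      · refine (ae_restrict_iff' (hUo.measurableSet.inter measurableSet_closedBall)).2
          (Eventually.of_forall fun x hx => ?_)
        exact mul_nonneg (Real.rpow_nonneg (hreg.pos x hx.1).le _) (hhU x hx.1)
      · refine LE.le.eventuallyLE ?_
        exact iUnion₂_subset fun j _ => hXU j
    · intro i _ j _ hij
      rcases lt_or_gt_of_ne hij with h | h
      · exact hdisj i j h
      · exact (hdisj j i h).symm
  obtain ⟨x1, hx1, hx1g⟩ := hgx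
  have hf0 : cx f ≠ 0 := by
    intro h0
    have h1 := hreg.pos x1 ⟨hx1g, hx1⟩
    have h2 := ev_cx f x1
    rw [h0, map_zero] at h2
    have h3 : rv f x1 = 0 := by exact_mod_cast h2.symm
    linarith
  obtain ⟨j, hj⟩ := rootW hreg hf0 hb hhU one_pos hint hdiv
  refine ⟨(j : ℤ) - k, ?_⟩
  have h9 : (-((W : ℕ) : ℂ) / (d : ℕ) + (((j : ℤ) - (k : ℤ) : ℤ) : ℂ)) = (s1 : ℂ) + (j : ℂ) := by
    rw [hs1]
    push_cast
    ring
  rw [h9]
  exact hj

end Pool.Agent.T6.H26.DC
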