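import Pool.Agent.T6.H26.DC.B
import Pool.Agent.T6.H16.RW.WH
import Pool.Agent.T6.H16.RA.B5
import Pool.Agent.W206.CU.BF
import Pool.Agent.Y229.LP2
import Pool.Agent.T6.H26.LCMain

set_option autoImplicit false

/-! # Real weighted cones with a definite factor -/

namespace Pool.Agent.T6.H26.DC

open MvPolynomial Pool.Agent.W574.SM Pool.Agent.W574.RO Pool.Agent.Y229 Pool.Agent.W574.LM
open Pool.Agent.W574.HS Pool.Agent.W574.CN
open Pool.Agent.TH192.DT Pool.Agent.R852.TL Pool.Agent.R779.HK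
open Pool.Agent.Y230.TL (Cl StJ StU StL)
open Pool.Agent.H628R4.TP (IsBFunction IsLocalBFunction)
open Pool.Agent.T6.H16.RA (cx rv isBFunction_C_mul)
open Pool.Agent.T6.H16.RW (global_of_localW)

lemma exists_point {n : ℕ} {g : MvPolynomial (Fin (n + 1)) ℝ} (hg : g ≠ 0) :
    ∃ x : Fin (n + 1) → ℝ, x ≠ 0 ∧ rv g x ≠ 0 := by
  by_contra hcon
  push Not at hcon
  have h1 : g * X 0 = 0 := by
    refine MvPolynomial.funext fun x => ?_
    rw [map_mul, eval_X, map_zero]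
    by_cases hx : x = 0
    · rw [hx, Pi.zero_apply, mul_zero]
    · rw [show eval x g = 0 from hcon x hx, zero_mul]
  exact hg ((mul_eq_zero.1 h1).resolve_right (X_ne_zero 0))

lemma cx_wh {n : ℕ} {w : Fin n → ℕ} {f : MvPolynomial (Fin n) ℝ} {D : ℕ}
    (h : f.IsWeightedHomogeneous w D) : (cx f).IsWeightedHomogeneous w D := by
  intro d hd
  refine h fun h0 => hd ?_
  unfold cx
  rw [coeff_map, h0, map_zero]

lemma wh_int {n : ℕ} {w : Fin n → ℕ} {f : MvPolynomial (Fin n) ℂ} {D : ℕ}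
    (h : f.IsWeightedHomogeneous w D) :
    f.IsWeightedHomogeneous (fun i => (w i : ℤ)) (D : ℤ) := by
  intro d hd
  have h1 := h hd
  rw [Finsupp.weight_apply, Finsupp.sum] at h1 ⊢
  rw [← h1]
  push_cast
  refine Finset.sum_congr rfl fun i _ => ?_
  simp

theorem rcone_root' {n : ℕ} {w : Fin (n + 1) → ℕ} (hw : ∀ i, 0 < w i)
    {g p : MvPolynomial (Fin (n + 1)) ℝ} {dg dp m : ℕ} (hg : g.IsWeightedHomogeneous w dg)
    (hp : p.IsWeightedHomogeneous w dp) (hdp : 0 < dp) (hm : 0 < m)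
    (hpos : ∀ x : Fin (n + 1) → ℝ, x ≠ 0 → 0 < rv p x) (hg0 : g ≠ 0)
    {b : Polynomial ℂ} (hb : IsBFunction (cx (g * p ^ m)) b) :
    ∃ l : ℤ, b.eval (-((∑ i, w i : ℕ) : ℂ) / (dg + m * dp : ℕ) + (l : ℂ)) = 0 := by
  have hn : 0 < ∑ i, w i := Finset.sum_pos (fun i _ => hw i) ⟨0, Finset.mem_univ _⟩
  obtain ⟨x, hx, hgx⟩ := exists_point hg0
  rcases lt_or_gt_of_ne hgx with h | h
  · have hg' : (-g).IsWeightedHomogeneous w dg := by
      intro d hd
      refine hg fun h0 => hd ?_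
      rw [coeff_neg, h0, neg_zero]
    have hb' : IsBFunction (cx (-g * p ^ m)) b := by
      have h1 := isBFunction_C_mul hb (c := -1) (by norm_num)
      have h2 : cx (-g * p ^ m) = C (-1) * cx (g * p ^ m) := by
        unfold cx
        rw [neg_mul, map_neg, map_neg, map_one, neg_one_mul]
      rw [h2]
      exact h1
    refine rcone_root hw hn hg' hp hdp hm hpos ⟨x, hx, ?_⟩ hb'
    have h3 : rv (-g) x = - rv g x := by
      unfold rv
      rw [map_neg]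
    rw [h3]
    linarith
  · exact rcone_root hw hn hg hp hdp hm hpos ⟨x, hx, h⟩ hb

theorem sf_rcone {n : ℕ} {w : Fin (n + 1) → ℕ} (hw : ∀ i, 0 < w i)
    {g p : MvPolynomial (Fin (n + 1)) ℝ} {dg dp m : ℕ} (hg : g.IsWeightedHomogeneous w dg)
    (hp : p.IsWeightedHomogeneous w dp) (hdp : 0 < dp) (hm : 0 < m)
    (hpos : ∀ x : Fin (n + 1) → ℝ, x ≠ 0 → 0 < rv p x) (hg0 : g ≠ 0) :
    cx (g * p ^ m) ≠ 0 ∧ ∃ l : ℤ, SF (fun _ : Fin 1 => cx (g * p ^ m)) 0
      (-((∑ i, w i : ℕ) : ℂ) / (dg + m * dp : ℕ) - (l : ℂ)) := by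
  classical
  have hp0 : p ≠ 0 := by
    rintro rfl
    have h1 := hpos (fun _ => 1) (by
      intro h
      exact one_ne_zero (congrFun h 0))
    unfold rv at h1
    rw [map_zero] at h1
    exact lt_irrefl _ h1
  have hF0 : cx (g * p ^ m) ≠ 0 := by
    unfold cx
    rw [Ne, map_eq_zero_iff _ (map_injective _ Complex.ofReal_injective)]
    exact mul_ne_zero hg0 (pow_ne_zero _ hp0)
  refine ⟨hF0, ?_⟩
  have hfd : (g * p ^ m).IsWeightedHomogeneous w (dg + m * dp) := by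
    have := hg.mul (hp.pow m)
    rwa [smul_eq_mul] at this
  obtain ⟨b1, hb1, hfe⟩ := exists_fe (fun _ : Fin 1 => cx (g * p ^ m)) ⟨0, hF0⟩
  obtain ⟨b0, hb0⟩ := Pool.Agent.W206.CU.exists_isBernsteinSatoOf (isB_of_single _ b1 hfe) hb1
  obtain ⟨l, hl⟩ := rcone_root' hw hg hp hdp hm hpos hg0 hb0.2.1
  refine ⟨-l, ?_⟩
  refine sf_of_local _ 0 _ (fun H b hb hH => ?_) ⟨b1, hb1, hfe⟩
  rw [MvPolynomial.eval_zero] at hH
  have h1 := localB_of_single _ H b hH hb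
  have h2 := global_of_localW (w := fun i => (w i : ℤ)) (fun i => by
    show (0 : ℤ) < (w i : ℤ)
    exact_mod_cast hw i) _ hF0 _ (wh_int (cx_wh hfd)) b h1
  obtain ⟨q, rfl⟩ := Pool.Agent.W206.CU.isBernsteinSatoOf_dvd hb0 h2
  rw [Polynomial.eval_mul, Int.cast_neg, sub_neg_eq_add, hl, zero_mul]

end Pool.Agent.T6.H26.DC
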