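import Pool.Agent.T6.H26.DC.Defs

set_option autoImplicit false
set_option linter.unusedSectionVars false
set_option linter.unusedVariables false

/-! # Real weighted cones with a definite factor: the class -/

namespace Pool.Agent.T6.H26.DC

open MvPolynomial Pool.Agent.W574.SM Pool.Agent.W574.RO Pool.Agent.Y229 Pool.Agent.W574.LM
open Pool.Agent.W574.HS Pool.Agent.W574.CN
open Pool.Agent.TH192.DT Pool.Agent.R852.TL Pool.Agent.R779.HK Pool.Agent.T6.H26.HankMix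
open Pool.Agent.Y230.TL (Cl StJ StU StL)
open Pool.Agent.H628R4.TP (IsBFunction IsLocalBFunction)
open Pool.Agent.T6.H16.RA (cx rv)
open Pool.Agent.T6.H26

/-- the root, for local functional equations -/
theorem rcone_local {n : ℕ} {w : Fin (n + 1) → ℕ} (hw : ∀ i, 0 < w i)
    {g p : MvPolynomial (Fin (n + 1)) ℝ} {dg dp m : ℕ} (hg : g.IsWeightedHomogeneous w dg)
    (hp : p.IsWeightedHomogeneous w dp) (hdp : 0 < dp) (hm : 0 < m)
    (hpos : ∀ x : Fin (n + 1) → ℝ, x ≠ 0 → 0 < eval x p) (hg0 : g ≠ 0)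
    (b : Polynomial ℂ) (hb : IsLocalBFunction (cx (g * p ^ m)) b) :
    ∃ l : ℤ, b.eval (-((∑ i, w i : ℕ) : ℂ) / (dg + m * dp : ℕ) + (l : ℂ)) = 0 := by
  have hF0 := (sf_rcone hw hg hp hdp hm hpos hg0).1
  have hfd : (g * p ^ m).IsWeightedHomogeneous w (dg + m * dp) := by
    have := hg.mul (hp.pow m)
    rwa [smul_eq_mul] at this
  have h2 := Pool.Agent.T6.H16.RW.global_of_localW (w := fun i => (w i : ℤ)) (fun i => by
    show (0 : ℤ) < (w i : ℤ)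
    exact_mod_cast hw i) _ hF0 _ (wh_int (cx_wh hfd)) b hb
  exact rcone_root' hw hg hp hdp hm hpos hg0 h2

/-- the integers -/
def intC : AddSubmonoid ℂ where
  carrier := {t | ∃ n : ℤ, (n : ℂ) = t}
  zero_mem' := ⟨0, Int.cast_zero⟩
  add_mem' := by
    rintro _ _ ⟨a, rfl⟩ ⟨b, rfl⟩
    exact ⟨a + b, Int.cast_add a b⟩

lemma mem_intC (t : ℂ) : t ∈ intC ↔ ∃ n : ℤ, (n : ℂ) = t := Iff.rfl

lemma intC_countable : (intC : Set ℂ).Countable := Set.countable_range (fun n : ℤ => (n : ℂ))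

lemma natC_le : natC ≤ intC := by
  intro t ht
  obtain ⟨n, hn⟩ := (mem_natC t).1 ht
  exact ⟨(n : ℤ), by rw [Int.cast_natCast]; exact hn⟩

lemma int_div : ∀ t ∈ intC, ∀ k : ℕ, k ≠ 0 → ∃ j < k, ∃ t' ∈ intC, t + ((j : ℕ) : ℂ) = k * t' := by
  rintro _ ⟨n, rfl⟩ k hk
  have hk0 : (0 : ℤ) < k := by exact_mod_cast Nat.pos_of_ne_zero hk
  have h1 := Int.emod_nonneg (-n) hk0.ne'
  have h2 := Int.emod_lt_of_pos (-n) hk0
  obtain ⟨j, hj⟩ := Int.eq_ofNat_of_zero_le h1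
  refine ⟨j, by omega, ((-((-n) / k) : ℤ) : ℂ), ⟨_, rfl⟩, ?_⟩
  have h3 := Int.emod_add_mul_ediv (-n) k
  have h4 : n + (j : ℤ) = k * (-((-n) / k)) := by
    rw [hj] at h3
    rw [mul_neg]
    omega
  exact_mod_cast congrArg (fun z : ℤ => (z : ℂ)) h4

lemma cl_mono {T T' : AddSubmonoid ℂ} (h : T ≤ T') {c : Bool} {A : Fam} {Z : RatFunc ℂ}
    (hC : Cl T c A Z) : Cl T' c A Z := by
  refine ⟨hC.fin, hC.ne, fun s hs => ?_, fun hc s hs => ?_⟩
  · obtain ⟨t, ht, h1⟩ := hC.pole s hs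
    exact ⟨t, h ht, h1⟩
  · obtain ⟨t, ht, h1⟩ := hC.ref hc s hs
    exact ⟨t, h ht, h1⟩

/-- **Real weighted cones: poles and forced roots.** -/
theorem rcone_cl (K : Fam → RatFunc ℂ → Prop)
    (hK : ∀ A Z, K A Z → ∀ s₀ : ℂ, Z.denom.eval s₀ = 0 → ∃ t ∈ intC, FoL A (s₀ - t))
    (A : Fam) (Z : RatFunc ℂ) (h : RCone K A Z) : Finite A.σ ∧ (∃ j, A.f j ≠ 0) ∧
      ∀ s₀ : ℂ, Z.denom.eval s₀ = 0 → ∃ t ∈ intC, FoL A (s₀ - t) := by
  classical
  obtain ⟨n, dg, dp, m, hdp, hm, w, hw, g, p, hg, hp, hg0, hpos, N, κ, Z, χ, hκ, hχ, ht, h⟩ := h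
  obtain ⟨hF0, l, hl⟩ := sf_rcone hw hg hp hdp hm hpos hg0
  have hd : 0 < dg + m * dp := Nat.lt_of_lt_of_le (Nat.mul_pos hm hdp) (Nat.le_add_left _ _)
  have hfd : (cx (g * p ^ m)).IsWeightedHomogeneous w (dg + m * dp) := by
    refine cx_wh ?_
    have := hg.mul (hp.pow m)
    rwa [smul_eq_mul] at this
  refine ⟨inferInstanceAs (Finite (Fin (n + 1))), ⟨0, hF0⟩, fun s hs => ?_⟩
  set d := dg + m * dp with hd'
  by_cases hpole : s = -((∑ i, w i : ℕ) : ℂ) / d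
  · refine ⟨(l : ℂ), ⟨l, rfl⟩, ?_⟩
    rw [hpole]
    exact hl
  obtain ⟨q, hq, hqs⟩ : ∃ q, χ q ≠ 0 ∧ (Z q).denom.eval s = 0 := by
    by_contra hcon
    push Not at hcon
    refine Reg_denom s _ ((Pool.Agent.W574.SM.Reg s).mul_mem
      ((Pool.Agent.W574.SM.Reg s).sum_mem fun q _ => ?_) (fac_mem d _ s fun h0 => hpole ?_)) hs
    · by_cases h0 : χ q = 0
      · rw [h0, Int.cast_zero, zero_mul]
        exact (Pool.Agent.W574.SM.Reg s).zero_mem
      · exact (Pool.Agent.W574.SM.Reg s).mul_mem (intCast_mem _ _)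
          (mem_Reg_of_denom _ _ (hcon q h0))
    · have hd0 : (d : ℂ) ≠ 0 := Nat.cast_ne_zero.2 hd.ne'
      rw [eq_div_iff hd0]
      linear_combination h0
  obtain ⟨a, ha, haq⟩ := hχ q hq
  have horb : ∀ c : ℂ, c ≠ 0 → Adm w (fun i => c ^ w i * a i) := by
    intro c hc
    refine ⟨fun h0 => ha.1 ?_, fun i hi => by
      change c ^ w i * a i = 0
      rw [ha.2 i hi, mul_zero]⟩
    funext i
    have h1 := congrFun h0 i
    simp only [Pi.zero_apply] at h1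
    exact (mul_eq_zero.1 h1).resolve_left (pow_ne_zero _ hc)
  have hex : ∀ c : ℂ, c ≠ 0 → ∃ t ∈ intC, ∃ i, w i ≠ 0 ∧ c ^ w i * a i ≠ 0 ∧
      SF (fun _ : Fin 1 => slc i (fun i => c ^ w i * a i) (cx (g * p ^ m))) 0 (s - t) := by
    intro c hc
    obtain ⟨i, hi, hai, hcl⟩ := h _ (horb c hc)
    rw [hκ a c hc ha, haq] at hcl
    obtain ⟨t, ht, h1⟩ := hK _ _ hcl s hqs
    exact ⟨t, ht, i, hi, hai, h1⟩
  obtain ⟨t, ht, hinf⟩ : ∃ t ∈ intC, {c : ℂ | c ≠ 0 ∧ ∃ i, w i ≠ 0 ∧ c ^ w i * a i ≠ 0 ∧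
      SF (fun _ : Fin 1 => slc i (fun i => c ^ w i * a i) (cx (g * p ^ m))) 0 (s - t)}.Infinite := by
    by_contra hcon
    push Not at hcon
    have h1 : ({0}ᶜ : Set ℂ) ⊆ ⋃ t ∈ (intC : Set ℂ), {c : ℂ | c ≠ 0 ∧ ∃ i, w i ≠ 0 ∧
        c ^ w i * a i ≠ 0 ∧
        SF (fun _ : Fin 1 => slc i (fun i => c ^ w i * a i) (cx (g * p ^ m))) 0 (s - t)} := by
      intro c hc
      obtain ⟨t, ht, h2⟩ := hex c hc
      exact Set.mem_biUnion ht ⟨hc, h2⟩
    have h2 : (⋃ t ∈ (intC : Set ℂ), {c : ℂ | c ≠ 0 ∧ ∃ i, w i ≠ 0 ∧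
        c ^ w i * a i ≠ 0 ∧
        SF (fun _ : Fin 1 => slc i (fun i => c ^ w i * a i) (cx (g * p ^ m))) 0
          (s - t)}).Countable := by
      refine intC_countable.biUnion fun t ht => ?_
      exact (hcon t ht).countable
    have h3 : (Set.univ : Set ℂ).Countable := by
      have h4 : ({0} ∪ {0}ᶜ : Set ℂ).Countable := (Set.countable_singleton 0).union (h2.mono h1)
      rwa [Set.union_compl_self] at h4
    exact not_countable_complex h3
  refine ⟨t, ht, ?_⟩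
  refine sf_orbit a (fun i hi => ha.2 i hi) _ hinf (fun _ : Fin 1 => cx (g * p ^ m)) (s - t)
    fun c hc B hB => ?_
  obtain ⟨hc0, i, hi, hai, h1⟩ := hc
  exact sf_slice i hi (fun i => c ^ w i * a i) hai (fun _ : Fin 1 => cx (g * p ^ m)) d
    (fun _ => hfd) (s - t) h1 B hB

/-- **The induction.** -/
theorem tr_closure (hJ : StJ) (hU : StU) (hL : StL) (k : ℕ) :
    ∀ (c : Bool) (A : Fam) (Z : RatFunc ℂ), TR k c A Z → Cl intC c A Z := by
  induction k with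
  | zero =>
    intro c A Z h
    refine Pool.Agent.R852.TL.tq_closure hJ hU hL intC int_div _ _ (fun A Z h => ?_)
      (fun A Z h => cl_mono natC_le (Pool.Agent.Y230.TL.weakHyp_cl hL A Z h)) c A Z h
    obtain ⟨h1, h2, h3⟩ := weakD_at A Z h
    refine ⟨h1, h2, fun s hs => ?_⟩
    obtain ⟨t, ht, h4⟩ := h3 s hs
    exact ⟨t, natC_le ht, h4⟩
  | succ k ih =>
    intro c A Z h
    refine Pool.Agent.R852.TL.tq_closure hJ hU hL intC int_div _ _ (fun A Z h => ?_)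
      (fun A Z h => ih true A Z h) c A Z h
    rcases h with h | h | h
    · have h1 := ih false A Z h
      exact ⟨h1.fin, h1.ne, h1.pole⟩
    · exact wcone_cl intC intC_countable _ (fun A Z h => ih false A Z h) A Z h
    · refine rcone_cl _ (fun A Z h => ?_) A Z h
      rcases h with h | h
      · exact (ih false A Z h).pole
      · exact (ih true A Z h).pole

/-- **The weak conjecture at the origin for the hypersurfaces in the class.** -/
theorem tr_weak (hJ : StJ) (hU : StU) (hL : StL) (k : ℕ) (c : Bool) {σ : Type}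
    (F : MvPolynomial σ ℂ) (Z : RatFunc ℂ)
    (h : TR k c ⟨σ, Fin 1, fun _ => F⟩ Z) (b : Polynomial ℂ)
    (hb : IsLocalBFunction F b) (s₀ : ℂ) (hs : Z.denom.eval s₀ = 0) :
    ∃ l : ℤ, b.eval (s₀ + (l : ℂ)) = 0 := by
  have hC := tr_closure hJ hU hL k c _ Z h
  obtain ⟨t, ht, h1⟩ := hC.pole s₀ hs
  obtain ⟨i, rfl⟩ := ht
  obtain ⟨j, hj⟩ := hC.ne
  refine ⟨-i, ?_⟩
  have h2 := Pool.Agent.Y230.TL.root_of_sf hC.fin F hj _ h1 b hb
  rw [Int.cast_neg, ← sub_eq_add_neg]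
  exact h2

end Pool.Agent.T6.H26.DC
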