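import Pool.Agent.T6.H26.DC.C

set_option autoImplicit false
set_option linter.unusedSectionVars false
set_option linter.unusedVariables false

/-! # Real weighted cones with a definite factor: the class -/

namespace Pool.Agent.T6.H26.DC

open MvPolynomial Pool.Agent.W574.SM Pool.Agent.W574.RO Pool.Agent.Y229 Pool.Agent.W574.LM
open Pool.Agent.W574.HS Pool.Agent.W574.CN
open Pool.Agent.TH192.DT Pool.Agent.R852.TL Pool.Agent.R779.HK Pool.Agent.T6.H26.HankMix
open Pool.Agent.Y230.TL (Cl StJ StU StL)
open Pool.Agent.H628R4.TP (IsBFunction IsLocalBFunction)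
open Pool.Agent.T6.H26

/-- **Real weighted cones with a definite factor.** `RCone Cl A Z`: the family `A` consists of one
polynomial `F = g p ^ m`, `m > 0`, where `g ≠ 0` and `p` are weighted homogeneous polynomials in
`x_0, ..., x_n` with real coefficients, for weights `w_i > 0`, of the degrees `dg` and `dp > 0`, and `p`
is positive at all points `x ≠ 0` of `ℝ ^ (n + 1)`. For every point `a ≠ 0` of `ℂ ^ (n + 1)` the germ of
`F` at `a` on some hyperplane `x_i = a_i`, `a_i ≠ 0` (which is transversal to the orbit of `a` under the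
action `c • a = (c ^ w_i a_i)_i` of the multiplicative group) is in the class `Cl`, with the local
topological zeta function `Z (κ a)`, where `κ` is constant on the orbits. All these germs are tame
(which holds automatically if all weights are `1`). Let `χ q` be the orbifold Euler characteristic of
the set of the orbits with `κ = q`: each orbit is counted with the order of its stabiliser. The
weighted blow-up of the origin gives `(d s + ∑ w_i) Z_F(s) = ∑_q χ q Z_q(s)`, `d = dg + m dp`, for the
local topological zeta function `Z_F` of `F` at the origin. -/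
inductive RCone (Cl : Fam → RatFunc ℂ → Prop) : Fam → RatFunc ℂ → Prop
  | mk (n dg dp m : ℕ) (hdp : 0 < dp) (hm : 0 < m) (w : Fin (n + 1) → ℕ) (hw : ∀ i, 0 < w i)
      (g p : MvPolynomial (Fin (n + 1)) ℝ) (hg : g.IsWeightedHomogeneous w dg)
      (hp : p.IsWeightedHomogeneous w dp) (hg0 : g ≠ 0)
      (hpos : ∀ x : Fin (n + 1) → ℝ, x ≠ 0 → 0 < eval x p)
      (N : ℕ) (κ : (Fin (n + 1) → ℂ) → Fin N) (Z : Fin N → RatFunc ℂ) (χ : Fin N → ℤ)
      (hκ : ∀ a (c : ℂ), c ≠ 0 → Adm w a → κ (fun i => c ^ w i * a i) = κ a)
      (hχ : ∀ q, χ q ≠ 0 → ∃ a, Adm w a ∧ κ a = q)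
      (ht : ∀ a, Adm w a → Tame w (fun _ : Fin 1 => map (algebraMap ℝ ℂ) (g * p ^ m)) a)
      (h : ∀ a, Adm w a → ∃ i, w i ≠ 0 ∧ a i ≠ 0 ∧
        Cl ⟨Fin n, Fin 1, fun _ => slc i a (map (algebraMap ℝ ℂ) (g * p ^ m))⟩ (Z (κ a))) :
      RCone Cl ⟨Fin (n + 1), Fin 1, fun _ => map (algebraMap ℝ ℂ) (g * p ^ m)⟩
        ((∑ q, (χ q : RatFunc ℂ) * Z q) * fac (dg + m * dp) (∑ i, w i))

/-- The germs which are obtained from the germs of ideals in the class `WeakD` and of hypersurfaces in
the class `WeakHyp` by the operations of `TQ` (sums and products in disjoint sets of variables,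
`∑ y_j f_j(x)`, `∑ y_j f_j(x) + g(z)`, products of powers of forms, powers, dropping variables), by
weighted cones (`WCone`), and by real weighted cones with a definite factor (`RCone`), nested at most
`k` times: `TR k false A Z` for ideals and `TR k true A Z` for hypersurfaces, with their local
topological zeta functions `Z`. -/
def TR : ℕ → Bool → Fam → RatFunc ℂ → Prop
  | 0 => TQ WeakD Pool.Agent.Y230.TL.WeakHyp
  | k + 1 => TQ (fun A Z => TR k false A Z ∨ WCone (TR k false) A Z ∨
      RCone (fun A Z => TR k false A Z ∨ TR k true A Z) A Z) (TR k true)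

end Pool.Agent.T6.H26.DC
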